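import Pool.Statements.S01384

set_option autoImplicit false
open Pool Pool.MP_4b4c0c_al

namespace Pool.Agent.S01384

/-!
The group of all maps `x ↦ (a x^σ + b) / (c x^σ + d)` of the projective line over
`F = 𝔽₂(t)`, where `σ = τ ^ deg (ad - bc)` and `τ` is the automorphism `t ↦ t + 1` of `F`, is
sharply triply transitive, its two point stabilizers contain no involutions, but they are not
commutative.
-/

open Matrix

section general

variable {F : Type} [Field F] (φ : Fˣ →* (F ≃+* F))

/-- the semilinear map of the matrix `A`, with the field automorphism `φ (det A)` -/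
def act (A : GL (Fin 2) F) (v : Fin 2 → F) : Fin 2 → F :=
  (A : Matrix (Fin 2) (Fin 2) F) *ᵥ (fun i => φ (Matrix.GeneralLinearGroup.det A) (v i))

/-- twisted product -/
def tw (A B : GL (Fin 2) F) : GL (Fin 2) F :=
  A * Matrix.GeneralLinearGroup.map
    ((φ (Matrix.GeneralLinearGroup.det A) : F ≃+* F) : F →+* F) B

theorem tw_apply (A B : GL (Fin 2) F) (i j : Fin 2) :
    ((tw φ A B : GL (Fin 2) F) : Matrix (Fin 2) (Fin 2) F) i j =
    (A : Matrix (Fin 2) (Fin 2) F) i 0 *
      φ (Matrix.GeneralLinearGroup.det A) ((B : Matrix (Fin 2) (Fin 2) F) 0 j) +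
    (A : Matrix (Fin 2) (Fin 2) F) i 1 *
      φ (Matrix.GeneralLinearGroup.det A) ((B : Matrix (Fin 2) (Fin 2) F) 1 j) := by
  unfold tw
  rw [Matrix.GeneralLinearGroup.coe_mul, Matrix.mul_apply, Fin.sum_univ_two]
  rfl

theorem det_tw (A B : GL (Fin 2) F) : Matrix.GeneralLinearGroup.det (tw φ A B) =
    Matrix.GeneralLinearGroup.det A *
      Units.map ((φ (Matrix.GeneralLinearGroup.det A) : F ≃+* F) : F →* F)
        (Matrix.GeneralLinearGroup.det B) := by
  unfold tw
  rw [map_mul, Matrix.GeneralLinearGroup.map_det]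
  rfl

theorem act_act (h2 : ∀ x y : Fˣ, φ (Units.map ((φ y : F ≃+* F) : F →* F) x) = φ x)
    (A B : GL (Fin 2) F) (v : Fin 2 → F) : act φ A (act φ B v) = act φ (tw φ A B) v := by
  unfold act
  rw [det_tw, map_mul, h2]
  unfold tw
  rw [Matrix.GeneralLinearGroup.coe_mul, ← Matrix.mulVec_mulVec]
  congr 1
  ext i
  simp only [Matrix.mulVec, dotProduct, map_sum, map_mul]
  rfl

theorem act_smul (A : GL (Fin 2) F) (c : F) (v : Fin 2 → F) :
    act φ A (c • v) = (φ (Matrix.GeneralLinearGroup.det A) c) • act φ A v := by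
  unfold act
  have : (fun i => φ (Matrix.GeneralLinearGroup.det A) ((c • v) i)) =
      (φ (Matrix.GeneralLinearGroup.det A) c) •
        (fun i => φ (Matrix.GeneralLinearGroup.det A) (v i)) := by
    ext i
    simp
  rw [this, Matrix.mulVec_smul]

theorem act_add (A : GL (Fin 2) F) (u v : Fin 2 → F) :
    act φ A (u + v) = act φ A u + act φ A v := by
  unfold act
  have : (fun i => φ (Matrix.GeneralLinearGroup.det A) ((u + v) i)) =
      (fun i => φ (Matrix.GeneralLinearGroup.det A) (u i)) +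
        (fun i => φ (Matrix.GeneralLinearGroup.det A) (v i)) := by
    ext i
    simp
  rw [this, Matrix.mulVec_add]

theorem act_one (v : Fin 2 → F) : act φ 1 v = v := by
  unfold act
  rw [map_one, map_one]
  simp

theorem act_injective (A : GL (Fin 2) F) : Function.Injective (act φ A) := by
  intro u v h
  unfold act at h
  have h1 := Matrix.mulVec_injective_of_isUnit (A := (A : Matrix (Fin 2) (Fin 2) F)) A.isUnit h
  ext i
  exact (φ (Matrix.GeneralLinearGroup.det A)).injective (congrFun h1 i)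

theorem act_zero (A : GL (Fin 2) F) : act φ A 0 = 0 := by
  have := act_smul φ A 0 0
  simpa using this

theorem act_ne (A : GL (Fin 2) F) {v : Fin 2 → F} (hv : v ≠ 0) : act φ A v ≠ 0 := by
  intro h
  apply hv
  apply act_injective φ A
  rw [h, act_zero]

/-- inverse for the twisted product -/
def twInv (A : GL (Fin 2) F) : GL (Fin 2) F :=
  Matrix.GeneralLinearGroup.map
    ((φ (Matrix.GeneralLinearGroup.det A) : F ≃+* F) : F →+* F) A⁻¹

theorem tw_inv (h1 : ∀ x : Fˣ, φ x * φ x = 1) (A : GL (Fin 2) F) : tw φ A (twInv φ A) = 1 := by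
  unfold tw twInv
  rw [← MonoidHom.comp_apply]
  have : (Matrix.GeneralLinearGroup.map
      ((φ (Matrix.GeneralLinearGroup.det A) : F ≃+* F) : F →+* F)).comp
      (Matrix.GeneralLinearGroup.map
      ((φ (Matrix.GeneralLinearGroup.det A) : F ≃+* F) : F →+* F)) =
      MonoidHom.id (GL (Fin 2) F) := by
    ext B i j
    have h3 := h1 (Matrix.GeneralLinearGroup.det A)
    have h4 := congrArg (fun f : F ≃+* F => f ((B : Matrix (Fin 2) (Fin 2) F) i j)) h3
    exact h4
  rw [this, MonoidHom.id_apply, mul_inv_cancel]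

abbrev PL (F : Type) [Field F] : Type := Projectivization F (Fin 2 → F)

/-- the permutation of the projective line given by `A` -/
def Rel (A : GL (Fin 2) F) (σ : Equiv.Perm (PL F)) : Prop :=
  ∀ (v : Fin 2 → F) (hv : v ≠ 0),
    σ (Projectivization.mk F v hv) = Projectivization.mk F (act φ A v) (act_ne φ A hv)

theorem exists_rel (h1 : ∀ x : Fˣ, φ x * φ x = 1)
    (h2 : ∀ x y : Fˣ, φ (Units.map ((φ y : F ≃+* F) : F →* F) x) = φ x)
    (A : GL (Fin 2) F) : ∃ σ : Equiv.Perm (PL F), Rel φ A σ := by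
  let f : GL (Fin 2) F → PL F → PL F := fun B =>
    Projectivization.map (σ := ((φ (Matrix.GeneralLinearGroup.det B) : F ≃+* F) : F →+* F))
      { toFun := act φ B
        map_add' := act_add φ B
        map_smul' := act_smul φ B } (act_injective φ B)
  have hf : ∀ B (v : Fin 2 → F) (hv : v ≠ 0), f B (Projectivization.mk F v hv) =
      Projectivization.mk F (act φ B v) (act_ne φ B hv) := fun B v hv => rfl
  have hbij : Function.Bijective (f A) := by
    constructor
    · intro x y hxy
      induction x using Projectivization.ind with | h v hv =>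
      induction y using Projectivization.ind with | h w hw =>
      rw [hf, hf, Projectivization.mk_eq_mk_iff'] at hxy
      obtain ⟨a, ha⟩ := hxy
      rw [Projectivization.mk_eq_mk_iff']
      refine ⟨(φ (Matrix.GeneralLinearGroup.det A)).symm a, ?_⟩
      apply act_injective φ A
      rw [act_smul, RingEquiv.apply_symm_apply, ha]
    · intro x
      induction x using Projectivization.ind with | h v hv =>
      refine ⟨Projectivization.mk F (act φ (twInv φ A) v) (act_ne φ _ hv), ?_⟩
      rw [hf]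
      congr 1
      rw [act_act φ h2, tw_inv φ h1, act_one]
  exact ⟨Equiv.ofBijective _ hbij, fun v hv => hf A v hv⟩

theorem rel_mul (h2 : ∀ x y : Fˣ, φ (Units.map ((φ y : F ≃+* F) : F →* F) x) = φ x)
    {A B : GL (Fin 2) F} {σ τ : Equiv.Perm (PL F)} (hσ : Rel φ A σ) (hτ : Rel φ B τ) :
    Rel φ (tw φ A B) (σ * τ) := by
  intro v hv
  rw [Equiv.Perm.mul_apply, hτ v hv, hσ]
  congr 1
  rw [act_act φ h2]

theorem rel_inv (h1 : ∀ x : Fˣ, φ x * φ x = 1)
    (h2 : ∀ x y : Fˣ, φ (Units.map ((φ y : F ≃+* F) : F →* F) x) = φ x)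
    {A : GL (Fin 2) F} {σ : Equiv.Perm (PL F)} (hσ : Rel φ A σ) :
    Rel φ (twInv φ A) σ⁻¹ := by
  intro v hv
  rw [Equiv.Perm.inv_eq_iff_eq, hσ]
  congr 1
  rw [act_act φ h2, tw_inv φ h1, act_one]

/-- the twisted group -/
def TG (h1 : ∀ x : Fˣ, φ x * φ x = 1)
    (h2 : ∀ x y : Fˣ, φ (Units.map ((φ y : F ≃+* F) : F →* F) x) = φ x) :
    Subgroup (Equiv.Perm (PL F)) where
  carrier := {σ | ∃ A : GL (Fin 2) F, Rel φ A σ}
  mul_mem' := by
    rintro σ τ ⟨A, hA⟩ ⟨B, hB⟩
    exact ⟨_, rel_mul φ h2 hA hB⟩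
  one_mem' := ⟨1, fun v hv => by
    rw [Equiv.Perm.one_apply]
    congr 1
    rw [act_one]⟩
  inv_mem' := by
    rintro σ ⟨A, hA⟩
    exact ⟨_, rel_inv φ h1 h2 hA⟩

def e1 : Fin 2 → F := ![1, 0]
def e2 : Fin 2 → F := ![0, 1]
def e3 : Fin 2 → F := ![1, 1]

theorem e1_ne : (e1 : Fin 2 → F) ≠ 0 := fun h => one_ne_zero (congrFun h 0)
theorem e2_ne : (e2 : Fin 2 → F) ≠ 0 := fun h => one_ne_zero (congrFun h 1)
theorem e3_ne : (e3 : Fin 2 → F) ≠ 0 := fun h => one_ne_zero (congrFun h 1)

theorem act_e1 (A : GL (Fin 2) F) : act φ A e1 = fun i => (A : Matrix (Fin 2) (Fin 2) F) i 0 := by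
  ext i
  simp [act, e1, Matrix.mulVec, dotProduct, Fin.sum_univ_two]

theorem act_e2 (A : GL (Fin 2) F) : act φ A e2 = fun i => (A : Matrix (Fin 2) (Fin 2) F) i 1 := by
  ext i
  simp [act, e2, Matrix.mulVec, dotProduct, Fin.sum_univ_two]

theorem act_e3 (A : GL (Fin 2) F) : act φ A e3 = fun i =>
    (A : Matrix (Fin 2) (Fin 2) F) i 0 + (A : Matrix (Fin 2) (Fin 2) F) i 1 := by
  ext i
  simp [act, e3, Matrix.mulVec, dotProduct, Fin.sum_univ_two]

/-- three distinct points are the images of the standard points -/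
theorem exists_std (h1 : ∀ x : Fˣ, φ x * φ x = 1)
    (h2 : ∀ x y : Fˣ, φ (Units.map ((φ y : F ≃+* F) : F →* F) x) = φ x)
    (a b c : PL F) (hab : a ≠ b) (hac : a ≠ c) (hbc : b ≠ c) :
    ∃ g ∈ TG φ h1 h2, g (Projectivization.mk F e1 e1_ne) = a ∧
      g (Projectivization.mk F e2 e2_ne) = b ∧ g (Projectivization.mk F e3 e3_ne) = c := by
  induction a using Projectivization.ind with | h u hu =>
  induction b using Projectivization.ind with | h v hv =>
  induction c using Projectivization.ind with | h w hw =>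
  rw [Ne, Projectivization.mk_eq_mk_iff'] at hab hac hbc
  have hd : u 0 * v 1 - u 1 * v 0 ≠ 0 := by
    intro h0
    apply hab
    by_cases hv0 : v 0 = 0
    · have hv1 : v 1 ≠ 0 := by
        intro hv1
        apply hv
        ext i
        fin_cases i
        · exact hv0
        · exact hv1
      have hu0 : u 0 = 0 := by
        have : u 0 * v 1 = 0 := by rw [hv0] at h0; simpa using h0
        exact (mul_eq_zero.mp this).resolve_right hv1
      refine ⟨u 1 / v 1, ?_⟩
      ext i
      fin_cases i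
      · simp [hv0, hu0]
      · simp [hv1]
    · refine ⟨u 0 / v 0, ?_⟩
      ext i
      fin_cases i
      · simp [hv0]
      · simp
        field_simp
        linear_combination h0
  set D : F := u 0 * v 1 - u 1 * v 0 with hD
  set α : F := (w 0 * v 1 - w 1 * v 0) / D with hα
  set β : F := (u 0 * w 1 - u 1 * w 0) / D with hβ
  have hw0 : w 0 = α * u 0 + β * v 0 := by
    rw [hα, hβ]
    field_simp
    rw [hD]
    ring
  have hw1 : w 1 = α * u 1 + β * v 1 := by
    rw [hα, hβ]
    field_simp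
    rw [hD]
    ring
  have hα0 : α ≠ 0 := by
    intro h0
    have hβ0 : β ≠ 0 := by
      intro h00
      apply hw
      ext i
      fin_cases i
      · simp [hw0, h0, h00]
      · simp [hw1, h0, h00]
    apply hbc
    refine ⟨β⁻¹, ?_⟩
    ext i
    fin_cases i
    · simp [hw0, h0, hβ0]
    · simp [hw1, h0, hβ0]
  have hβ0 : β ≠ 0 := by
    intro h0
    apply hac
    refine ⟨α⁻¹, ?_⟩
    ext i
    fin_cases i
    · simp [hw0, h0, hα0]
    · simp [hw1, h0, hα0]
  let A : GL (Fin 2) F := Matrix.GeneralLinearGroup.mkOfDetNeZero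
    !![α * u 0, β * v 0; α * u 1, β * v 1] (by
      rw [Matrix.det_fin_two_of]
      have : α * u 0 * (β * v 1) - β * v 0 * (α * u 1) = α * β * D := by rw [hD]; ring
      rw [this]
      exact mul_ne_zero (mul_ne_zero hα0 hβ0) hd)
  have hA : (A : Matrix (Fin 2) (Fin 2) F) = !![α * u 0, β * v 0; α * u 1, β * v 1] := rfl
  obtain ⟨σ, hσ⟩ := exists_rel φ h1 h2 A
  refine ⟨σ, ⟨A, hσ⟩, ?_, ?_, ?_⟩
  · rw [hσ, Projectivization.mk_eq_mk_iff']
    refine ⟨α, ?_⟩
    rw [act_e1, hA]
    ext i
    fin_cases i <;> simp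
  · rw [hσ, Projectivization.mk_eq_mk_iff']
    refine ⟨β, ?_⟩
    rw [act_e2, hA]
    ext i
    fin_cases i <;> simp
  · rw [hσ, Projectivization.mk_eq_mk_iff']
    refine ⟨1, ?_⟩
    rw [act_e3, hA]
    ext i
    fin_cases i
    · simpa using hw0
    · simpa using hw1

/-- a permutation that belongs to a scalar matrix is trivial -/
theorem rel_scalar (h1 : ∀ x : Fˣ, φ x * φ x = 1) {A : GL (Fin 2) F} {σ : Equiv.Perm (PL F)}
    (hσ : Rel φ A σ) (c : F) (hA : (A : Matrix (Fin 2) (Fin 2) F) = !![c, 0; 0, c]) : σ = 1 := by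
  have hc : c ≠ 0 := by
    intro h0
    have h5 : (A : Matrix (Fin 2) (Fin 2) F).det ≠ 0 := by
      rw [← Matrix.GeneralLinearGroup.val_det_apply]
      exact Units.ne_zero _
    apply h5
    rw [hA, h0]
    simp [Matrix.det_fin_two_of]
  have hdet : Matrix.GeneralLinearGroup.det A = Units.mk0 c hc * Units.mk0 c hc := by
    ext
    rw [Matrix.GeneralLinearGroup.val_det_apply, hA, Matrix.det_fin_two_of]
    simp
  have hψ : φ (Matrix.GeneralLinearGroup.det A) = 1 := by
    rw [hdet, map_mul, h1]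
  ext x
  induction x using Projectivization.ind with | h v hv =>
  rw [hσ, Equiv.Perm.one_apply, Projectivization.mk_eq_mk_iff']
  refine ⟨c, ?_⟩
  unfold act
  rw [hψ, hA]
  ext i
  fin_cases i <;> simp [Matrix.mulVec, dotProduct, Fin.sum_univ_two]

/-- stabilizer of the two standard points -/
theorem rel_diag {A : GL (Fin 2) F} {σ : Equiv.Perm (PL F)} (hσ : Rel φ A σ)
    (ha : σ (Projectivization.mk F e1 e1_ne) = Projectivization.mk F e1 e1_ne)
    (hb : σ (Projectivization.mk F e2 e2_ne) = Projectivization.mk F e2 e2_ne) :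
    ∃ a b : Fˣ, (A : Matrix (Fin 2) (Fin 2) F) = !![(a : F), 0; 0, (b : F)] := by
  rw [hσ, Projectivization.mk_eq_mk_iff'] at ha hb
  obtain ⟨a, ha⟩ := ha
  obtain ⟨b, hb⟩ := hb
  rw [act_e1] at ha
  rw [act_e2] at hb
  have ha0 := congrFun ha 0
  have ha1 := congrFun ha 1
  have hb0 := congrFun hb 0
  have hb1 := congrFun hb 1
  simp [e1] at ha0 ha1
  simp [e2] at hb0 hb1
  have hAA : (A : Matrix (Fin 2) (Fin 2) F) = !![a, 0; 0, b] := by
    ext i j
    fin_cases i <;> fin_cases j <;> simp [← ha0, ← ha1, ← hb0, ← hb1]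
  have h5 : (A : Matrix (Fin 2) (Fin 2) F).det ≠ 0 := by
    rw [← Matrix.GeneralLinearGroup.val_det_apply]
    exact Units.ne_zero _
  rw [hAA, Matrix.det_fin_two_of] at h5
  have ha' : a ≠ 0 := by rintro rfl; simp at h5
  have hb' : b ≠ 0 := by rintro rfl; simp at h5
  exact ⟨Units.mk0 a ha', Units.mk0 b hb', hAA⟩

theorem rel_e3 {A : GL (Fin 2) F} {σ : Equiv.Perm (PL F)} (hσ : Rel φ A σ) (a b : F)
    (hA : (A : Matrix (Fin 2) (Fin 2) F) = !![a, 0; 0, b])
    (hc : σ (Projectivization.mk F e3 e3_ne) = Projectivization.mk F e3 e3_ne) : a = b := by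
  rw [hσ, Projectivization.mk_eq_mk_iff'] at hc
  obtain ⟨c, hc⟩ := hc
  rw [act_e3, hA] at hc
  have hc0 := congrFun hc 0
  have hc1 := congrFun hc 1
  simp [e3] at hc0 hc1
  rw [← hc0, ← hc1]

end general

section field

open Polynomial

instance : Fact (Nat.Prime 2) := ⟨Nat.prime_two⟩

abbrev FF : Type := RatFunc (ZMod 2)

/-- the automorphism `t ↦ t + 1` of `𝔽₂(t)` -/
noncomputable def tau : FF ≃+* FF :=
  IsFractionRing.ringEquivOfRingEquiv (A := (ZMod 2)[X]) (B := (ZMod 2)[X])
    ((Polynomial.algEquivAevalXAddC (1 : ZMod 2)).toRingEquiv)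

theorem tau_alg (p : (ZMod 2)[X]) : tau (algebraMap (ZMod 2)[X] FF p) =
    algebraMap (ZMod 2)[X] FF (p.comp (X + C 1)) := by
  unfold tau
  rw [IsFractionRing.ringEquivOfRingEquiv_algebraMap]
  congr 1

theorem tau_tau (x : FF) : tau (tau x) = x := by
  induction x using RatFunc.induction_on with
  | f p q hq =>
    rw [map_div₀, tau_alg, tau_alg, map_div₀, tau_alg, tau_alg]
    have : ∀ p : (ZMod 2)[X], (p.comp (X + C 1)).comp (X + C 1) = p := by
      intro p
      rw [Polynomial.comp_assoc]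
      have h : (X + C 1 : (ZMod 2)[X]).comp (X + C 1) = X := by
        rw [add_comp, X_comp, C_comp, add_assoc, ← C_add]
        have : (1 + 1 : ZMod 2) = 0 := by decide
        rw [this, C_0, add_zero]
      rw [h, comp_X]
    rw [this, this]

theorem deg_tau (x : FF) : (tau x).intDegree = x.intDegree := by
  induction x using RatFunc.induction_on with
  | f p q hq =>
    by_cases hp : p = 0
    · simp [hp]
    have h1 : ∀ p : (ZMod 2)[X], p ≠ 0 → p.comp (X + C 1) ≠ 0 := by
      intro p hp h0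
      apply hp
      have : (p.comp (X + C 1)).comp (X + C 1) = p := by
        rw [Polynomial.comp_assoc]
        have h : (X + C 1 : (ZMod 2)[X]).comp (X + C 1) = X := by
          rw [add_comp, X_comp, C_comp, add_assoc, ← C_add]
          have : (1 + 1 : ZMod 2) = 0 := by decide
          rw [this, C_0, add_zero]
        rw [h, comp_X]
      rw [← this, h0, zero_comp]
    have h2 : ∀ p : (ZMod 2)[X], p ≠ 0 → algebraMap (ZMod 2)[X] FF p ≠ 0 := by
      intro p hp
      simpa using hp
    rw [map_div₀, tau_alg, tau_alg, RatFunc.intDegree_div (h2 _ (h1 p hp)) (h2 _ (h1 q hq)),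
      RatFunc.intDegree_div (h2 _ hp) (h2 _ hq), RatFunc.intDegree_polynomial,
      RatFunc.intDegree_polynomial, RatFunc.intDegree_polynomial, RatFunc.intDegree_polynomial,
      natDegree_comp, natDegree_comp, natDegree_X_add_C, mul_one, mul_one]

/-- the degree as a homomorphism -/
noncomputable def deg : FFˣ →* Multiplicative ℤ where
  toFun x := Multiplicative.ofAdd (x : FF).intDegree
  map_one' := by simp
  map_mul' x y := by
    rw [Units.val_mul, RatFunc.intDegree_mul x.ne_zero y.ne_zero]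
    rfl

noncomputable def phi : FFˣ →* (FF ≃+* FF) := (zpowersHom (FF ≃+* FF) tau).comp deg

theorem phi_apply (x : FFˣ) : phi x = tau ^ (x : FF).intDegree := rfl

theorem tau_sq : tau * tau = 1 := by
  ext x
  exact tau_tau x

theorem phi_one (x : FFˣ) : phi x * phi x = 1 := by
  rw [phi_apply, ← _root_.zpow_add, ← two_mul, _root_.zpow_mul]
  have : tau ^ (2 : ℤ) = 1 := by
    rw [zpow_two]
    exact tau_sq
  rw [this, _root_.one_zpow]

theorem phi_cases (x : FFˣ) : phi x = 1 ∨ phi x = tau := by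
  rw [phi_apply]
  have h : tau ^ (2 : ℤ) = 1 := by
    rw [zpow_two]
    exact tau_sq
  rcases Int.even_or_odd' (x : FF).intDegree with ⟨k, hk | hk⟩
  · left
    rw [hk, _root_.zpow_mul, h, _root_.one_zpow]
  · right
    rw [hk, _root_.zpow_add, _root_.zpow_mul, h, _root_.one_zpow, one_mul, zpow_one]

theorem deg_phi (x y : FFˣ) : ((phi y) (x : FF)).intDegree = (x : FF).intDegree := by
  rcases phi_cases y with h | h
  · rw [h]; rfl
  · rw [h, deg_tau]

theorem phi_two (x y : FFˣ) : phi (Units.map ((phi y : FF ≃+* FF) : FF →* FF) x) = phi x := by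
  rw [phi_apply, phi_apply]
  congr 1
  exact deg_phi x y

theorem no_inv (a : FFˣ) (h : (a : FF) * phi a (a : FF) = 1) : (a : FF) = 1 := by
  have h1 : ((a : FF) * phi a (a : FF)).intDegree = 0 := by rw [h]; simp
  have h3 : phi a (a : FF) ≠ 0 := by
    intro h0
    rw [h0, mul_zero] at h
    exact zero_ne_one h
  rw [RatFunc.intDegree_mul a.ne_zero h3, deg_phi] at h1
  have h2 : (a : FF).intDegree = 0 := by omega
  rw [phi_apply, h2, zpow_zero] at h
  have h4 : (a : FF) * (a : FF) = 1 := h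
  have h5 : ((a : FF) - 1) * ((a : FF) - 1) = 0 := by
    have h6 : (2 : FF) = 0 := by
      have : ((2 : ℕ) : FF) = 0 := by
        exact CharP.cast_eq_zero FF 2
      exact_mod_cast this
    linear_combination h4 - h6 * (a : FF) + h6
  have h7 := mul_self_eq_zero.mp h5
  linear_combination h7

theorem tau_X : tau (RatFunc.X : FF) = RatFunc.X + 1 := by
  rw [← RatFunc.algebraMap_X, tau_alg, X_comp]
  simp

end field

/-- in `PGL₂(P)` the stabilizer of two distinct points is commutative -/
theorem comm_of_fix {P : Type} [Field P] (σ τ : Equiv.Perm (PL P)) (A B : GL (Fin 2) P)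
    (hA : ∀ (v : Fin 2 → P) (hv : v ≠ 0) (w : Fin 2 → P) (hw : w ≠ 0),
      w = Matrix.mulVec (A : Matrix (Fin 2) (Fin 2) P) v →
        σ (Projectivization.mk P v hv) = Projectivization.mk P w hw)
    (hB : ∀ (v : Fin 2 → P) (hv : v ≠ 0) (w : Fin 2 → P) (hw : w ≠ 0),
      w = Matrix.mulVec (B : Matrix (Fin 2) (Fin 2) P) v →
        τ (Projectivization.mk P v hv) = Projectivization.mk P w hw)
    (x y : PL P) (hxy : x ≠ y) (hσx : σ x = x) (hσy : σ y = y) (hτx : τ x = x) (hτy : τ y = y)
    (z : PL P) : σ (τ z) = τ (σ z) := by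
  have hne : ∀ (C : GL (Fin 2) P) (v : Fin 2 → P), v ≠ 0 →
      Matrix.mulVec (C : Matrix (Fin 2) (Fin 2) P) v ≠ 0 := by
    intro C v hv h0
    apply hv
    apply Matrix.mulVec_injective_of_isUnit (A := (C : Matrix (Fin 2) (Fin 2) P)) C.isUnit
    show Matrix.mulVec (C : Matrix (Fin 2) (Fin 2) P) v = Matrix.mulVec (C : Matrix (Fin 2) (Fin 2) P) 0
    rw [h0, Matrix.mulVec_zero]
  induction x using Projectivization.ind with | h u hu =>
  induction y using Projectivization.ind with | h v hv =>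
  induction z using Projectivization.ind with | h w hw =>
  rw [hA u hu _ (hne A u hu) rfl, Projectivization.mk_eq_mk_iff'] at hσx
  rw [hA v hv _ (hne A v hv) rfl, Projectivization.mk_eq_mk_iff'] at hσy
  rw [hB u hu _ (hne B u hu) rfl, Projectivization.mk_eq_mk_iff'] at hτx
  rw [hB v hv _ (hne B v hv) rfl, Projectivization.mk_eq_mk_iff'] at hτy
  obtain ⟨a, ha⟩ := hσx
  obtain ⟨b, hb⟩ := hσy
  obtain ⟨c, hc⟩ := hτx
  obtain ⟨d, hd⟩ := hτy
  rw [Ne, Projectivization.mk_eq_mk_iff'] at hxy
  have hdet : u 0 * v 1 - u 1 * v 0 ≠ 0 := by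
    intro h0
    apply hxy
    by_cases hv0 : v 0 = 0
    · have hv1 : v 1 ≠ 0 := by
        intro hv1
        apply hv
        ext i
        fin_cases i
        · exact hv0
        · exact hv1
      have hu0 : u 0 = 0 := by
        have : u 0 * v 1 = 0 := by rw [hv0] at h0; simpa using h0
        exact (mul_eq_zero.mp this).resolve_right hv1
      refine ⟨u 1 / v 1, ?_⟩
      ext i
      fin_cases i
      · simp [hv0, hu0]
      · simp [hv1]
    · refine ⟨u 0 / v 0, ?_⟩
      ext i
      fin_cases i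
      · simp [hv0]
      · simp
        field_simp
        linear_combination h0
  have hwuv : ∃ r s : P, w = r • u + s • v := by
    refine ⟨(w 0 * v 1 - w 1 * v 0) / (u 0 * v 1 - u 1 * v 0),
      (u 0 * w 1 - u 1 * w 0) / (u 0 * v 1 - u 1 * v 0), ?_⟩
    ext i
    have hdet' : -(u 1 * v 0) + u 0 * v 1 ≠ 0 := by
      intro h0
      apply hdet
      linear_combination h0
    fin_cases i
    · simp only [Fin.zero_eta, Pi.add_apply, Pi.smul_apply, smul_eq_mul]
      rw [div_mul_eq_mul_div, div_mul_eq_mul_div, ← add_div, eq_div_iff hdet]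
      ring
    · simp only [Fin.mk_one, Pi.add_apply, Pi.smul_apply, smul_eq_mul]
      rw [div_mul_eq_mul_div, div_mul_eq_mul_div, ← add_div, eq_div_iff hdet]
      ring
  obtain ⟨r, s, hw'⟩ := hwuv
  rw [hB w hw _ (hne B w hw) rfl, hA w hw _ (hne A w hw) rfl,
    hA _ (hne B w hw) _ (hne A _ (hne B w hw)) rfl, hB _ (hne A w hw) _ (hne B _ (hne A w hw)) rfl]
  congr 1
  rw [hw']
  simp only [Matrix.mulVec_add, Matrix.mulVec_smul, ← ha, ← hb, ← hc, ← hd]
  rw [smul_comm c a u, smul_comm d b v]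

/-- The negation of the preceding statement: Every 3-transitive group on at least 3 points whose 3-point stabilizers are trivial and whose 2-point stabilizers have no involutions is permutation-isomorphic to PGL_2(P) on the projective line over some field P of characteristic 2. -/
theorem result :
    ¬ (∀ (G X : Type) [Group G] [MulAction G X],
      (∃ a b c : X, a ≠ b ∧ a ≠ c ∧ b ≠ c) →
      (∀ a b c a' b' c' : X, a ≠ b → a ≠ c → b ≠ c → a' ≠ b' → a' ≠ c' → b' ≠ c' →
        ∃ g : G, g • a = a' ∧ g • b = b' ∧ g • c = c') →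
      (∀ a b : X, a ≠ b → ∀ g : G, g • a = a → g • b = b → g * g = 1 → g = 1) →
      (∀ a b c : X, a ≠ b → a ≠ c → b ≠ c → ∀ g : G,
        g • a = a → g • b = b → g • c = c → g = 1) →
      ∃ (P : Type) (_ : Field P), CharP P 2 ∧
        ∃ e : X ≃ Projectivization P (Fin 2 → P),
          ∀ σ : Equiv.Perm (Projectivization P (Fin 2 → P)),
            ((∃ g : G, ∀ x : X, σ (e x) = e (g • x)) ↔
              ∃ A : Matrix.GeneralLinearGroup (Fin 2) P,
                ∀ (v : Fin 2 → P) (hv : v ≠ 0) (w : Fin 2 → P) (hw : w ≠ 0),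
                  w = Matrix.mulVec (A : Matrix (Fin 2) (Fin 2) P) v →
                    σ (Projectivization.mk P v hv) = Projectivization.mk P w hw)) := by
  intro H
  let p1 : PL FF := Projectivization.mk FF e1 e1_ne
  let p2 : PL FF := Projectivization.mk FF e2 e2_ne
  let p3 : PL FF := Projectivization.mk FF e3 e3_ne
  have h12 : p1 ≠ p2 := by
    intro h
    rw [Projectivization.mk_eq_mk_iff'] at h
    obtain ⟨a, ha⟩ := h
    have := congrFun ha 0
    simp [e1, e2] at this
  have h13 : p1 ≠ p3 := by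
    intro h
    rw [Projectivization.mk_eq_mk_iff'] at h
    obtain ⟨a, ha⟩ := h
    have h1 := congrFun ha 0
    have h2 := congrFun ha 1
    simp [e1, e3] at h1 h2
    rw [h2] at h1
    exact zero_ne_one h1
  have h23 : p2 ≠ p3 := by
    intro h
    rw [Projectivization.mk_eq_mk_iff'] at h
    obtain ⟨a, ha⟩ := h
    have h1 := congrFun ha 0
    have h2 := congrFun ha 1
    simp [e2, e3] at h1 h2
    rw [h1] at h2
    exact zero_ne_one h2
  let G := TG phi phi_one phi_two
  have trans : ∀ a b c a' b' c' : PL FF, a ≠ b → a ≠ c → b ≠ c → a' ≠ b' → a' ≠ c' → b' ≠ c' →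
        ∃ g : G, g • a = a' ∧ g • b = b' ∧ g • c = c' := by
    intro a b c a' b' c' h1 h2 h3 h4 h5 h6
    obtain ⟨g, hg, g1, g2, g3⟩ := exists_std phi phi_one phi_two a b c h1 h2 h3
    obtain ⟨g', hg', g1', g2', g3'⟩ := exists_std phi phi_one phi_two a' b' c' h4 h5 h6
    refine ⟨⟨g' * g⁻¹, G.mul_mem hg' (G.inv_mem hg)⟩, ?_, ?_, ?_⟩
    · show g' (g.symm a) = a'
      rw [← g1, Equiv.symm_apply_apply, g1']
    · show g' (g.symm b) = b'
      rw [← g2, Equiv.symm_apply_apply, g2']
    · show g' (g.symm c) = c'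
      rw [← g3, Equiv.symm_apply_apply, g3']
  -- reduction to standard points
  have third : ∀ a b : PL FF, a ≠ b → ∃ c, a ≠ c ∧ b ≠ c := by
    intro a b hab
    by_contra hcon
    push Not at hcon
    have k : ∀ c, c = a ∨ c = b := by
      intro c
      by_cases hc : a = c
      · exact Or.inl hc.symm
      · exact Or.inr (hcon c hc).symm
    rcases k p1 with k1 | k1 <;> rcases k p2 with k2 | k2 <;> rcases k p3 with k3 | k3
    · exact h12 (k1.trans k2.symm)
    · exact h12 (k1.trans k2.symm)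
    · exact h13 (k1.trans k3.symm)
    · exact h23 (k2.trans k3.symm)
    · exact h23 (k2.trans k3.symm)
    · exact h13 (k1.trans k3.symm)
    · exact h12 (k1.trans k2.symm)
    · exact h12 (k1.trans k2.symm)
  have noinv : ∀ a b : PL FF, a ≠ b → ∀ g : G, g • a = a → g • b = b → g * g = 1 → g = 1 := by
    intro a b hab g ga gb hgg
    obtain ⟨c, hac, hbc⟩ := third a b hab
    obtain ⟨h, h1, h2, h3⟩ := trans p1 p2 p3 a b c h12 h13 h23 hab hac hbc
    let k : G := h⁻¹ * g * h
    have k1 : k • p1 = p1 := by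
      show (h⁻¹ * g * h) • p1 = p1
      rw [mul_smul, mul_smul, h1, ga, ← h1, inv_smul_smul]
    have k2 : k • p2 = p2 := by
      show (h⁻¹ * g * h) • p2 = p2
      rw [mul_smul, mul_smul, h2, gb, ← h2, inv_smul_smul]
    have kk : k * k = 1 := by
      have : k * k = h⁻¹ * (g * g) * h := by
        show (h⁻¹ * g * h) * (h⁻¹ * g * h) = _
        group
      rw [this, hgg]
      group
    obtain ⟨⟨σ, A, hA⟩, hk⟩ : ∃ k' : G, k' = k := ⟨k, rfl⟩
    rw [← hk] at k1 k2 kk
    obtain ⟨x, y, hxy⟩ := rel_diag phi hA k1 k2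
    have hss : σ * σ = 1 := congrArg Subtype.val kk
    have hmul := rel_mul phi phi_two hA hA
    rw [hss] at hmul
    have hdet : Matrix.GeneralLinearGroup.det A = x * y := by
      ext
      rw [Matrix.GeneralLinearGroup.val_det_apply, hxy, Matrix.det_fin_two_of]
      simp
    have htw : ((tw phi A A : GL (Fin 2) FF) : Matrix (Fin 2) (Fin 2) FF) =
        !![(x : FF) * phi (x * y) (x : FF), 0; 0, (y : FF) * phi (x * y) (y : FF)] := by
      ext i j
      rw [tw_apply, hdet, hxy]
      fin_cases i <;> fin_cases j <;> simp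
    have hxx := rel_e3 phi hmul _ _ htw rfl
    have hyinv : phi (x * y⁻¹) = phi (x * y) := by
      have h7 := phi_one y
      rw [map_mul, map_mul, map_inv, inv_eq_of_mul_eq_one_left h7]
    have h8 := no_inv (x * y⁻¹) (by
      rw [hyinv]
      have h9 : phi (x * y) (y : FF) ≠ 0 := by
        intro h0
        have := (map_eq_zero_iff (phi (x * y)) (phi (x * y)).injective).mp h0
        exact y.ne_zero this
      rw [Units.val_mul, Units.val_inv_eq_inv_val, map_mul, map_inv₀]
      have h10 := y.ne_zero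
      field_simp
      exact hxx)
    have h11 : (x : FF) = y := by
      rw [Units.val_mul, Units.val_inv_eq_inv_val] at h8
      have h10 := y.ne_zero
      field_simp at h8
      exact h8
    have h12 : σ = 1 := rel_scalar phi phi_one hA (x : FF) (by rw [hxy, h11])
    have h13 : k = 1 := by
      rw [← hk]
      exact Subtype.ext h12
    have : g = h * k * h⁻¹ := by
      show g = h * (h⁻¹ * g * h) * h⁻¹
      group
    rw [this, h13]
    group
  have sharp : ∀ a b c : PL FF, a ≠ b → a ≠ c → b ≠ c → ∀ g : G,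
        g • a = a → g • b = b → g • c = c → g = 1 := by
    intro a b c hab hac hbc g ga gb gc
    obtain ⟨h, h1, h2, h3⟩ := trans p1 p2 p3 a b c h12 h13 h23 hab hac hbc
    let k : G := h⁻¹ * g * h
    have k1 : k • p1 = p1 := by
      show (h⁻¹ * g * h) • p1 = p1
      rw [mul_smul, mul_smul, h1, ga, ← h1, inv_smul_smul]
    have k2 : k • p2 = p2 := by
      show (h⁻¹ * g * h) • p2 = p2
      rw [mul_smul, mul_smul, h2, gb, ← h2, inv_smul_smul]
    have k3 : k • p3 = p3 := by
      show (h⁻¹ * g * h) • p3 = p3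
      rw [mul_smul, mul_smul, h3, gc, ← h3, inv_smul_smul]
    obtain ⟨⟨σ, A, hA⟩, hk⟩ : ∃ k' : G, k' = k := ⟨k, rfl⟩
    rw [← hk] at k1 k2 k3
    obtain ⟨x, y, hxy⟩ := rel_diag phi hA k1 k2
    have h11 := rel_e3 phi hA _ _ hxy k3
    have h12 : σ = 1 := rel_scalar phi phi_one hA (x : FF) (by rw [hxy, h11])
    have h13 : k = 1 := by
      rw [← hk]
      exact Subtype.ext h12
    have : g = h * k * h⁻¹ := by
      show g = h * (h⁻¹ * g * h) * h⁻¹
      group
    rw [this, h13]
    group
  obtain ⟨P, hP, -, e, he⟩ := H G (PL FF) ⟨p1, p2, p3, h12, h13, h23⟩ trans noinv sharp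
  -- two elements of the stabilizer which do not commute
  have hX : (RatFunc.X : FF) ≠ 0 := RatFunc.X_ne_zero
  let A : GL (Fin 2) FF := Matrix.GeneralLinearGroup.mkOfDetNeZero
    !![RatFunc.X, 0; 0, 1] (by rw [Matrix.det_fin_two_of]; simpa using hX)
  let B : GL (Fin 2) FF := Matrix.GeneralLinearGroup.mkOfDetNeZero
    !![RatFunc.X * RatFunc.X, 0; 0, 1] (by
      rw [Matrix.det_fin_two_of]
      simpa using hX)
  have hAm : (A : Matrix (Fin 2) (Fin 2) FF) = !![RatFunc.X, 0; 0, 1] := rfl
  have hBm : (B : Matrix (Fin 2) (Fin 2) FF) = !![RatFunc.X * RatFunc.X, 0; 0, 1] := rfl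
  obtain ⟨α, hα⟩ := exists_rel phi phi_one phi_two A
  obtain ⟨β, hβ⟩ := exists_rel phi phi_one phi_two B
  have hdA : phi (Matrix.GeneralLinearGroup.det A) = tau := by
    rw [phi_apply, Matrix.GeneralLinearGroup.val_det_apply, hAm, Matrix.det_fin_two_of]
    simp
  have hdB : phi (Matrix.GeneralLinearGroup.det B) = 1 := by
    rw [phi_apply, Matrix.GeneralLinearGroup.val_det_apply, hBm, Matrix.det_fin_two_of]
    have : (RatFunc.X * RatFunc.X * 1 - 0 * 0 : FF).intDegree = 2 := by
      rw [mul_one, mul_zero, sub_zero, RatFunc.intDegree_mul hX hX]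
      simp
    rw [this, _root_.zpow_two]
    exact tau_sq
  have α1 : α p1 = p1 := by
    rw [hα, Projectivization.mk_eq_mk_iff']
    refine ⟨RatFunc.X, ?_⟩
    rw [act_e1, hAm]
    ext i
    fin_cases i <;> simp [e1]
  have α2 : α p2 = p2 := by
    rw [hα, Projectivization.mk_eq_mk_iff']
    refine ⟨1, ?_⟩
    rw [act_e2, hAm]
    ext i
    fin_cases i <;> simp [e2]
  have β1 : β p1 = p1 := by
    rw [hβ, Projectivization.mk_eq_mk_iff']
    refine ⟨RatFunc.X * RatFunc.X, ?_⟩
    rw [act_e1, hBm]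
    ext i
    fin_cases i <;> simp [e1]
  have β2 : β p2 = p2 := by
    rw [hβ, Projectivization.mk_eq_mk_iff']
    refine ⟨1, ?_⟩
    rw [act_e2, hBm]
    ext i
    fin_cases i <;> simp [e2]
  let gα : G := ⟨α, A, hα⟩
  let gβ : G := ⟨β, B, hβ⟩
  obtain ⟨A', hA'⟩ := (he ((e.symm.trans α).trans e)).mp ⟨gα, fun x => by
    simp only [Equiv.trans_apply, Equiv.symm_apply_apply]
    rfl⟩
  obtain ⟨B', hB'⟩ := (he ((e.symm.trans β).trans e)).mp ⟨gβ, fun x => by
    simp only [Equiv.trans_apply, Equiv.symm_apply_apply]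
    rfl⟩
  have hcomm := comm_of_fix _ _ A' B' hA' hB' (e p1) (e p2) (fun h => h12 (e.injective h))
    (by simp [α1]) (by simp [α2]) (by simp [β1]) (by simp [β2]) (e p3)
  simp only [Equiv.trans_apply, Equiv.symm_apply_apply] at hcomm
  have hc2 := e.injective hcomm
  rw [hβ, hα, hα, hβ, Projectivization.mk_eq_mk_iff'] at hc2
  obtain ⟨c, hc⟩ := hc2
  have hAB : act phi A (act phi B e3) = ![RatFunc.X * ((RatFunc.X + 1) * (RatFunc.X + 1)), 1] := by
    rw [act_e3, hBm]
    unfold act
    rw [hdA, hAm]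
    ext i
    fin_cases i <;> simp [Matrix.mulVec, dotProduct, Fin.sum_univ_two, tau_X]
  have hBA : act phi B (act phi A e3) = ![RatFunc.X * RatFunc.X * RatFunc.X, 1] := by
    rw [act_e3, hAm]
    unfold act
    rw [hdB, hBm]
    ext i
    fin_cases i <;> simp [Matrix.mulVec, dotProduct, Fin.sum_univ_two]
  rw [hAB, hBA] at hc
  have c1 := congrFun hc 1
  have c0 := congrFun hc 0
  simp at c0 c1
  rw [c1] at c0
  have h2 : (2 : FF) = 0 := by
    have : ((2 : ℕ) : FF) = 0 := CharP.cast_eq_zero FF 2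
    exact_mod_cast this
  have h3 : (RatFunc.X : FF) = 0 := by
    linear_combination - c0 - h2 * RatFunc.X * RatFunc.X
  exact hX h3

end Pool.Agent.S01384
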